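import Mathlib

set_option autoImplicit false

namespace Pool.Agent.H.MP_a785c8_co

abbrev Z3 := Fin 3 → ℤ

def di (x y z : Z3) : ℤ :=
  x 0 * (y 1 * z 2 - y 2 * z 1) - x 1 * (y 0 * z 2 - y 2 * z 0) + x 2 * (y 0 * z 1 - y 1 * z 0)

def lv (f z : Z3) : ℤ := f 0 * z 0 + f 1 * z 1 + f 2 * z 2

def el (T : Fin 3 → Fin 3 → ℝ) (i : Fin 3) (z : Z3) : ℝ := T i 0 * z 0 + T i 1 * z 1 + T i 2 * z 2

def cn (T : Fin 3 → Fin 3 → ℝ) (z : Z3) : Prop := ∀ i, 0 ≤ el T i z

variable {T : Fin 3 → Fin 3 → ℝ} {f : Z3} {c : ℤ}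

lemma cn_of {P Q R z : Z3} (hP : cn T P) (hQ : cn T Q) (hR : cn T R) (N a b d : ℤ) (hN : 0 < N)
    (ha : 0 ≤ a) (hb : 0 ≤ b) (hd : 0 ≤ d) (h : ∀ j, N * z j = a * P j + b * Q j + d * R j) :
    cn T z := fun i => by
  have h0 : (N : ℝ) * z 0 = a * P 0 + b * Q 0 + d * R 0 := by exact_mod_cast h 0
  have h1 : (N : ℝ) * z 1 = a * P 1 + b * Q 1 + d * R 1 := by exact_mod_cast h 1
  have h2 : (N : ℝ) * z 2 = a * P 2 + b * Q 2 + d * R 2 := by exact_mod_cast h 2
  have e : N * el T i z = a * el T i P + b * el T i Q + d * el T i R := by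
    unfold el; linear_combination T i 0 * h0 + T i 1 * h1 + T i 2 * h2
  have := mul_nonneg (Int.cast_nonneg_iff.mpr ha) (hP i)
  have := mul_nonneg (Int.cast_nonneg_iff.mpr hb) (hQ i)
  have := mul_nonneg (Int.cast_nonneg_iff.mpr hd) (hR i)
  exact nonneg_of_mul_nonneg_right (by linarith : 0 ≤ N * el T i z) (Int.cast_pos.mpr hN)

lemma cram (U V W x : Z3) (i : Fin 3) :
    di U V W * x i = di x V W * U i + di U x W * V i + di U V x * W i := by
  fin_cases i <;> simp only [di, Fin.zero_eta, Fin.mk_one, Fin.reduceFinMk] <;> ring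

lemma cram_lv (U V W x : Z3) :
    di U V W * lv f x = di x V W * lv f U + di U x W * lv f V + di U V x * lv f W := by
  unfold di lv; ring

lemma lev4 (hc : 2 ≤ c) {U V W x : Z3} (h1 : lv f U = c) (h2 : lv f V = c) (h3 : lv f W = c)
    (h4 : lv f x = c) : di U V W = di x V W + di U x W + di U V x := by
  have := cram_lv (f := f) U V W x
  rw [h1, h2, h3, h4] at this
  exact mul_right_cancel₀ (by omega : c ≠ 0) (by linarith)

lemma tri (hc : 2 ≤ c) {P Q R : Z3} (h1 : lv f P = c) (h2 : lv f Q = c) (h3 : lv f R = c)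
    (hN : 0 < di P Q R) (h : ∀ X, lv f X = c → 0 ≤ di X Q R → 0 ≤ di P X R → 0 ≤ di P Q X →
      X = P ∨ X = Q ∨ X = R) (z : Z3) (hz : lv f z = 0) :
    ∃ m n : ℤ, ∀ j, z j = m * (Q j - P j) + n * (R j - P j) := by
  have e0 := cram_lv (f := f) P Q R z
  rw [h1, h2, h3, hz] at e0
  have e1 : di z Q R + di P z R + di P Q z = 0 :=
    mul_right_cancel₀ (by omega : c ≠ 0) (by linarith)
  have b1 := Int.emod_nonneg (di P z R) hN.ne'
  have b2 := Int.emod_lt_of_pos (di P z R) hN
  have b3 := Int.emod_add_mul_ediv (di P z R) (di P Q R)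
  have d1 := Int.emod_nonneg (di P Q z) hN.ne'
  have d2 := Int.emod_lt_of_pos (di P Q z) hN
  have d3 := Int.emod_add_mul_ediv (di P Q z) (di P Q R)
  set m := di P z R / di P Q R
  set n := di P Q z / di P Q R
  set b := di P z R % di P Q R
  set d := di P Q z % di P Q R
  have z1 : ∀ x y, di x y y = 0 := fun x y => by unfold di; ring
  have z2 : ∀ x y, di x x y = 0 := fun x y => by unfold di; ring
  have z3 : ∀ x y, di x y x = 0 := fun x y => by unfold di; ring
  refine ⟨m, n, fun j => ?_⟩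
  by_cases hb : b + d ≤ di P Q R
  · set X : Z3 := fun j => P j + z j - m * (Q j - P j) - n * (R j - P j) with hX
    have x1 : di P X R = b := by simp only [di, hX] at b3 ⊢; linarith
    have x2 : di P Q X = d := by simp only [di, hX] at d3 ⊢; linarith
    have x0 : lv f X = c := by
      simp only [lv, hX] at h1 h2 h3 hz ⊢
      linear_combination (1 + m + n) * h1 + hz - m * h2 - n * h3
    have x3 := lev4 hc h1 h2 h3 x0
    rcases h X x0 (by omega) (by omega) (by omega) with e | e | e
    · have := congrFun e j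
      simp only [hX] at this
      linarith
    · rw [e] at x1; omega
    · rw [e] at x2; omega
  · set X : Z3 := fun j => Q j + R j - P j - z j + m * (Q j - P j) + n * (R j - P j) with hX
    have x1 : di P X R = di P Q R - b := by simp only [di, hX] at b3 ⊢; linarith
    have x2 : di P Q X = di P Q R - d := by simp only [di, hX] at d3 ⊢; linarith
    have x0 : lv f X = c := by
      simp only [lv, hX] at h1 h2 h3 hz ⊢
      linear_combination (-1 - m - n) * h1 - hz + (1 + m) * h2 + (1 + n) * h3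
    have x3 := lev4 hc h1 h2 h3 x0
    rcases h X x0 (by omega) (by omega) (by omega) with e | e | e
    · rw [e, z2] at x1; omega
    · rw [e, z1] at x2; omega
    · rw [e, z1] at x1; omega

lemma low (hc : 2 ≤ c) (h : ∀ z, cn T z → z ≠ 0 → c ≤ lv f z) {z : Z3} (h1 : cn T z)
    (h2 : 0 < lv f z) : c ≤ lv f z :=
  h z h1 fun e => by simp [e, lv] at h2

lemma para (hc : 2 ≤ c) (h : ∀ z, cn T z → z ≠ 0 → c ≤ lv f z) {w A B D X : Z3} (hw : lv f w = 1)
    (h1 : lv f A = c) (h2 : lv f B = c) (h3 : lv f D = c) (c1 : cn T A) (c2 : cn T B)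
    (c3 : cn T D) (c4 : cn T X) (hX : ∀ j, X j = B j + D j - A j) (x y : ℤ)
    (e : ∀ j, A j - c * w j = x * (B j - A j) + y * (D j - A j)) : False := by
  have b1 := Int.emod_nonneg x (by omega : c ≠ 0)
  have b2 := Int.emod_lt_of_pos x (by omega : 0 < c)
  have b3 := Int.emod_add_mul_ediv x c
  have d1 := Int.emod_nonneg y (by omega : c ≠ 0)
  have d2 := Int.emod_lt_of_pos y (by omega : 0 < c)
  have d3 := Int.emod_add_mul_ediv y c
  set Z : Z3 := fun j => A j - w j - x / c * (B j - A j) - y / c * (D j - A j) with hZ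
  have z1 : lv f Z = c - 1 := by
    simp only [lv, hZ] at *
    linear_combination (1 + x / c + y / c) * h1 - hw - x / c * h2 - y / c * h3
  have z2 : ∀ j, c * Z j = (c - 1) * A j + x % c * (B j - A j) + y % c * (D j - A j) := fun j => by
    simp only [hZ]
    linear_combination e j - (B j - A j) * b3 - (D j - A j) * d3
  have z3 : cn T Z := by
    by_cases hs : x % c + y % c ≤ c - 1
    · exact cn_of c1 c2 c3 c (c - 1 - x % c - y % c) (x % c) (y % c) (by omega) (by omega) b1 d1
        fun j => by linarith [z2 j]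
    · exact cn_of c4 c2 c3 c (x % c + y % c - (c - 1)) (c - 1 - y % c) (c - 1 - x % c) (by omega)
        (by omega) (by omega) (by omega) fun j => by rw [hX]; linarith [z2 j]
  have := low hc h z3 (by omega)
  omega

lemma diam (hc : 2 ≤ c) (h : ∀ z, cn T z → z ≠ 0 → c ≤ lv f z) {w O A B : Z3} (hw : lv f w = 1)
    (h1 : lv f O = c) (h2 : lv f A = c) (h3 : lv f B = c) (c0 : cn T O) (c1 : cn T A)
    (c2 : cn T B) (c3 : cn T (fun j => 2 * O j - A j)) (c4 : cn T (fun j => 2 * O j - B j))
    (x y : ℤ) (e : ∀ j, O j - c * w j = x * (A j - O j) + y * (B j - O j)) : False := by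
  have b1 := Int.emod_nonneg x (by omega : c ≠ 0)
  have b2 := Int.emod_lt_of_pos x (by omega : 0 < c)
  have b3 := Int.emod_add_mul_ediv x c
  have d1 := Int.emod_nonneg y (by omega : c ≠ 0)
  have d2 := Int.emod_lt_of_pos y (by omega : 0 < c)
  have d3 := Int.emod_add_mul_ediv y c
  generalize x % c = s at *
  generalize y % c = t at *
  generalize x / c = m at *
  generalize y / c = n at *
  set Z : ℤ → ℤ → Z3 := fun a b j => O j - w j - (m + a) * (A j - O j) - (n + b) * (B j - O j)
    with hZ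
  have z1 : ∀ a b, lv f (Z a b) = c - 1 := fun a b => by
    simp only [lv, hZ] at *
    linear_combination (1 + m + a + n + b) * h1 - hw - (m + a) * h2 - (n + b) * h3
  have z2 : ∀ a b j, c * Z a b j =
      (c - 1) * O j + (s - c * a) * (A j - O j) + (t - c * b) * (B j - O j) := fun a b j => by
    simp only [hZ]
    linear_combination e j - (A j - O j) * b3 - (B j - O j) * d3
  have z3 : ∀ a b, ¬ cn T (Z a b) := fun a b k => by
    have := low hc h k (by rw [z1]; omega)
    rw [z1] at this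
    omega
  by_cases k1 : s + t ≤ c - 1
  · exact z3 0 0 (cn_of c0 c1 c2 c (c - 1 - s - t) s t (by omega) (by omega) b1 d1
      fun j => by linarith [z2 0 0 j])
  by_cases k2 : s < t
  · exact z3 0 1 (cn_of c0 c1 c4 c (t - 1 - s) s (c - t) (by omega) (by omega) b1 (by omega)
      fun j => by linarith [z2 0 1 j])
  by_cases k3 : t < s
  · exact z3 1 0 (cn_of c0 c3 c2 c (s - 1 - t) (c - s) t (by omega) (by omega) (by omega) d1
      fun j => by linarith [z2 1 0 j])
  by_cases k4 : c + 1 ≤ s + t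
  · exact z3 1 1 (cn_of c0 c3 c4 c (s + t - 1 - c) (c - s) (c - t) (by omega) (by omega) (by omega)
      (by omega) fun j => by linarith [z2 1 1 j])
  obtain rfl : t = s := by omega
  obtain rfl : c = 2 * t := by omega
  have k5 := low hc h (cn_of c0 c0 c0
    (z := fun j => 2 * w j + (1 + 2 * m) * (A j - O j) + (1 + 2 * n) * (B j - O j)) t 1 0 0
    (by omega) (by omega) le_rfl le_rfl fun j => by
      linear_combination (A j - O j) * b3 + (B j - O j) * d3 - e j)
  have k6 : lv f (fun j => 2 * w j + (1 + 2 * m) * (A j - O j) + (1 + 2 * n) * (B j - O j)) = 2 := by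
    simp only [lv] at *
    linear_combination 2 * hw + (1 + 2 * m) * (h2 - h1) + (1 + 2 * n) * (h3 - h1)
  rw [k6] at k5
  obtain rfl : t = 1 := by omega
  have z4 : ∀ a b : ℤ, ∃ i, el T i O + (1 - 2 * a) * (el T i A - el T i O) +
      (1 - 2 * b) * (el T i B - el T i O) < 0 := fun a b => by
    obtain ⟨i, hi⟩ := not_forall.mp (z3 a b)
    refine ⟨i, lt_of_eq_of_lt ?_ (by linarith : 2 * el T i (Z a b) < 0)⟩
    have g0 := congrArg (Int.cast : ℤ → ℝ) (z2 a b 0)
    have g1 := congrArg (Int.cast : ℤ → ℝ) (z2 a b 1)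
    have g2 := congrArg (Int.cast : ℤ → ℝ) (z2 a b 2)
    push_cast at g0 g1 g2
    unfold el
    linear_combination -T i 0 * g0 - T i 1 * g1 - T i 2 * g2
  obtain ⟨i1, j1⟩ := z4 0 0
  obtain ⟨i2, j2⟩ := z4 0 1
  obtain ⟨i3, j3⟩ := z4 1 0
  obtain ⟨i4, j4⟩ := z4 1 1
  have g : ∀ (P : Z3) i, el T i (fun j => 2 * O j - P j) = 2 * el T i O - el T i P := fun P i => by
    unfold el; push_cast; ring
  unfold cn at c3 c4
  simp only [g] at c3 c4
  push_cast at j1 j2 j3 j4
  rcases (by decide : ∀ a b c d : Fin 3, a = b ∨ a = c ∨ a = d ∨ b = c ∨ b = d ∨ c = d) i1 i2 i3 i4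
    with rfl | rfl | rfl | rfl | rfl | rfl
  · linarith [c1 i1]
  · linarith [c2 i1]
  · linarith [c0 i1]
  · linarith [c0 i2]
  · linarith [c4 i2]
  · linarith [c3 i3]

def Qd (T : Fin 3 → Fin 3 → ℝ) (f : Z3) (c : ℤ) (A B C D : Z3) : Prop :=
  ((cn T A ∧ lv f A = c) ∧ (cn T B ∧ lv f B = c) ∧ (cn T C ∧ lv f C = c) ∧ (cn T D ∧ lv f D = c)) ∧
    0 < di A B C ∧ 0 < di B C D ∧ 0 < di C D A ∧ 0 < di D A B

lemma Qd.rot {A B C D : Z3} (h : Qd T f c A B C D) : Qd T f c B C D A :=
  ⟨⟨h.1.2.1, h.1.2.2.1, h.1.2.2.2, h.1.1⟩, h.2.2.1, h.2.2.2.1, h.2.2.2.2, h.2.1⟩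

lemma Qd.area (hc : 2 ≤ c) {A B C D : Z3} (h : Qd T f c A B C D) :
    di B C D + di D A B = di A B C + di C D A := by
  have := lev4 hc h.1.1.2 h.1.2.1.2 h.1.2.2.1.2 h.1.2.2.2.2
  unfold di at *
  linarith

lemma Qd.shrink (hc : 2 ≤ c) {A B C D X : Z3} (h : Qd T f c A B C D)
    (hm : ∀ A' B' C' D', Qd T f c A' B' C' D' → di A B C + di C D A ≤ di A' B' C' + di C' D' A')
    (hX : lv f X = c) (x1 : 0 ≤ di A B X) (x2 : 0 ≤ di B C X) (x3 : 0 < di A X C) : X = B := by
  obtain ⟨⟨⟨a1, a2⟩, ⟨b1, b2⟩, ⟨c1, c2⟩, d⟩, q1, q2, q3, q4⟩ := h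
  have e1 := lev4 hc a2 b2 c2 hX
  have e2 : di X B C = di B C X := by unfold di; ring
  have e3 : di A B C * di X C D = di A X C * di B C D + di C D A * di B C X := by unfold di; ring
  have e4 : di A B C * di D A X = di A X C * di D A B + di C D A * di A B X := by unfold di; ring
  have := hm A X C D ⟨⟨⟨a1, a2⟩, ⟨cn_of a1 b1 c1 _ _ _ _ q1 (by omega) x3.le x1 (cram A B C X), hX⟩,
    ⟨c1, c2⟩, d⟩, x3, (mul_pos_iff_of_pos_left q1).mp (by rw [e3]; positivity),
    q3, (mul_pos_iff_of_pos_left q1).mp (by rw [e4]; positivity)⟩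
  funext j
  have e5 := cram A B C X j
  rw [show di X B C = 0 by omega, show di A B X = 0 by omega, show di A X C = di A B C by omega] at e5
  exact mul_left_cancel₀ q1.ne' (by linarith)

theorem noquad (hc : 2 ≤ c) (h : ∀ z, cn T z → z ≠ 0 → c ≤ lv f z) {w : Z3} (hw : lv f w = 1)
    {A0 B0 C0 D0 : Z3} (h0 : Qd T f c A0 B0 C0 D0) : False := by
  obtain ⟨_, ⟨A, B, C, D, hq, rfl⟩, hm⟩ := Int.exists_least_of_bdd
    (P := fun n => ∃ A B C D, Qd T f c A B C D ∧ di A B C + di C D A = n)
    ⟨0, fun _ ⟨_, _, _, _, h, e⟩ => by linarith [h.2.1, h.2.2.2.1]⟩ ⟨_, A0, B0, C0, D0, h0, rfl⟩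
  have hm1 := fun A' B' C' D' h => hm _ ⟨A', B', C', D', h, rfl⟩
  have ar := hq.area hc
  have M : ∀ X, lv f X = c → 0 ≤ di A B X → 0 ≤ di B C X → 0 ≤ di C D X → 0 ≤ di D A X →
      (X = A ∨ X = B ∨ X = C ∨ X = D) ∨ (di A X C = 0 ∧ di B X D = 0) := fun X x0 x1 x2 x3 x4 => by
    rcases lt_trichotomy 0 (di A X C) with k | k | k
    · exact Or.inl (Or.inr (Or.inl (hq.shrink hc hm1 x0 x1 x2 k)))
    · rcases lt_trichotomy 0 (di B X D) with l | l | l
      · exact Or.inl (Or.inr (Or.inr (Or.inl (hq.rot.shrink hc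
          (fun _ _ _ _ h => by linarith [hm1 _ _ _ _ h]) x0 x2 x3 l))))
      · exact Or.inr ⟨k.symm, l.symm⟩
      · exact Or.inl (Or.inl (hq.rot.rot.rot.shrink hc
          (fun _ _ _ _ h => by linarith [hm1 _ _ _ _ h]) x0 x4 x1 (by unfold di at *; linarith)))
    · exact Or.inl (Or.inr (Or.inr (Or.inr (hq.rot.rot.shrink hc
        (fun _ _ _ _ h => by linarith [hm1 _ _ _ _ h]) x0 x3 x4 (by unfold di at *; linarith)))))
  obtain ⟨⟨⟨a1, a2⟩, ⟨b1, b2⟩, ⟨c1, c2⟩, d1, d2⟩, q1, q2, q3, q4⟩ := hq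
  have sub : ∀ P Q : Z3, ∀ k, lv f (fun j => P j - k * Q j) = lv f P - k * lv f Q := fun P Q k => by
    unfold lv; ring
  by_cases hO : ∃ O, lv f O = c ∧ di A O C = 0 ∧ di B O D = 0
  · obtain ⟨O, o1, o2, o3⟩ := hO
    have e1 := lev4 hc a2 b2 c2 o1
    have e2 := lev4 hc a2 c2 d2 o1
    have e3 := lev4 hc a2 b2 d2 o1
    have r1 : di O A B + di B C O = di A B C := by unfold di at *; linarith
    have r2 : di C D O + di D A O = di C D A := by unfold di at *; linarith
    have r3 : di O A B + di D A O = di D A B := by unfold di at *; linarith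
    have r4 : di O A B * di B C D - di D A B * di B C O = di A B C * di B O D := by
      unfold di; ring
    rw [o3] at r4
    have hS : 0 < di B C D + di D A B := by omega
    have p1 : 0 < di O A B := (mul_pos_iff_of_pos_left hS).mp (lt_of_lt_of_eq (mul_pos q4 q1)
      (by linear_combination -r4 - di D A B * r1))
    have p2 : 0 < di B C O := (mul_pos_iff_of_pos_left hS).mp (lt_of_lt_of_eq (mul_pos q2 q1)
      (by linear_combination r4 - di B C D * r1))
    have p3 : 0 < di D A O := (mul_pos_iff_of_pos_left hS).mp (lt_of_lt_of_eq (mul_pos q4 q3)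
      (by linear_combination r4 + di D A B * r1 - (di B C D + di D A B) * r3 - di D A B * ar))
    have p4 : 0 < di C D O := (mul_pos_iff_of_pos_left hS).mp (lt_of_lt_of_eq (mul_pos q2 q3)
      (by linear_combination -r4 - di D A B * r1 + (di B C D + di D A B) * (r3 - r2) -
        di B C D * ar + (di B C D + di D A B) * ar))
    have o4 : cn T O := cn_of a1 b1 c1 _ _ _ _ q1 (by unfold di at *; linarith) o2.ge
      (by unfold di at *; linarith) (cram A B C O)
    have t := tri hc o1 a2 b2 p1 (fun X x0 x1 x2 x3 => by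
      have f1 : di O A B * di B C X = di X A B * di B C O + di O X B * di A B C := by
        unfold di; ring
      have f2 : di O A B * di C D X = di X A B * di C D O + di O X B * di C D A +
        di O A X * di B C D := by unfold di; ring
      have f3 : di O A B * di D A X = di X A B * di D A O + di O A X * di D A B := by
        unfold di; ring
      rcases M X x0 (by unfold di at *; linarith)
        (nonneg_of_mul_nonneg_right (by rw [f1]; positivity) p1)
        (nonneg_of_mul_nonneg_right (by rw [f2]; positivity) p1)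
        (nonneg_of_mul_nonneg_right (by rw [f3]; positivity) p1) with (k | k | k | k) | k
      · exact Or.inr (Or.inl k)
      · exact Or.inr (Or.inr k)
      · rw [k] at x2; unfold di at *; linarith
      · rw [k] at x3; unfold di at *; linarith
      · have f4 : di O A B * di A X C = di X A B * di A O C + di O A X * di A B C := by
          unfold di; ring
        have f5 : di O A B * di B X D = di X A B * di B O D - di O X B * di D A B := by
          unfold di; ring
        rw [k.1, o2] at f4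
        rw [k.2, o3] at f5
        have f6 : di O A X = 0 := mul_right_cancel₀ q1.ne' (by linarith)
        have f7 : di O X B = 0 := mul_right_cancel₀ q4.ne' (by linarith)
        have f8 := lev4 hc o1 a2 b2 x0
        refine Or.inl (funext fun j => ?_)
        have f9 := cram O A B X j
        rw [f6, f7, show di X A B = di O A B by omega] at f9
        exact mul_left_cancel₀ p1.ne' (by linarith))
    obtain ⟨m, n, e⟩ := t (fun j => C j - 1 * O j) (by rw [sub]; omega)
    obtain ⟨m', n', e'⟩ := t (fun j => D j - 1 * O j) (by rw [sub]; omega)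
    obtain ⟨x, y, e''⟩ := t (fun j => O j - c * w j) (by rw [sub, hw]; omega)
    have g1 : ∀ j, C j = O j + m * (A j - O j) + n * (B j - O j) := fun j => by linarith [e j]
    have g2 : ∀ j, D j = O j + m' * (A j - O j) + n' * (B j - O j) := fun j => by linarith [e' j]
    have k1 : di A O C = -n * di O A B := by simp only [di, g1]; ring
    have k2 : di B C O = -m * di O A B := by simp only [di, g1]; ring
    have k3 : di B O D = m' * di O A B := by simp only [di, g2]; ring
    have k4 : di D A O = -n' * di O A B := by simp only [di, g2]; ring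
    have l1 : n = 0 := by simpa [p1.ne'] using k1.symm.trans o2
    have l2 : 0 < -m := (mul_pos_iff_of_pos_right p1).mp (k2 ▸ p2)
    have l3 : m' = 0 := by simpa [p1.ne'] using k3.symm.trans o3
    have l4 : 0 < -n' := (mul_pos_iff_of_pos_right p1).mp (k4 ▸ p3)
    exact diam hc h hw o1 a2 b2 o4 a1 b1
      (cn_of o4 c1 c1 (-m) (-m - 1) 1 0 l2 (by omega) (by omega) le_rfl fun j => by
        rw [g1, l1]; ring)
      (cn_of o4 d1 d1 (-n') (-n' - 1) 1 0 l4 (by omega) (by omega) le_rfl fun j => by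
        rw [g2, l3]; ring) x y e''
  · have t := tri hc a2 b2 d2 (by unfold di at *; linarith) (fun X x0 x1 x2 x3 => by
      have e3 : di D A B * di B C X = di B C D * di A B X + di A B C * di X B D := by unfold di; ring
      have e4 : di D A B * di C D X = di B C D * di A X D + di C D A * di X B D := by unfold di; ring
      rcases M X x0 x3 (nonneg_of_mul_nonneg_right (by rw [e3]; positivity) q4)
        (nonneg_of_mul_nonneg_right (by rw [e4]; positivity) q4) (by unfold di at *; linarith)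
        with (k | k | k | k) | k
      · exact Or.inl k
      · exact Or.inr (Or.inl k)
      · rw [k] at x1; unfold di at *; linarith
      · exact Or.inr (Or.inr k)
      · exact absurd ⟨X, x0, k⟩ hO)
    obtain ⟨m, n, e⟩ := t (fun j => C j - 1 * A j) (by rw [sub]; omega)
    obtain ⟨x, y, e'⟩ := t (fun j => A j - c * w j) (by rw [sub, hw]; omega)
    have e1 : ∀ j, C j = A j + m * (B j - A j) + n * (D j - A j) := fun j => by linarith [e j]
    have k1 : di A B C = n * di D A B := by simp only [di, e1]; ring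
    have k2 : di C D A = m * di D A B := by simp only [di, e1]; ring
    have k3 : 0 < n := (mul_pos_iff_of_pos_right q4).mp (k1 ▸ q1)
    have k4 : 0 < m := (mul_pos_iff_of_pos_right q4).mp (k2 ▸ q3)
    have k5 : di B C D = (m + n - 1) * di D A B := by simp only [di, e1]; ring
    refine para hc h hw a2 b2 d2 a1 b1 d1 (X := fun j => B j + D j - A j)
      (cn_of b1 c1 d1 (m + n - 1) (n - 1) 1 (m - 1) (by omega) (by omega) (by omega) (by omega)
        fun j => by rw [e1]; ring) (fun _ => rfl) x y e'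

end Pool.Agent.H.MP_a785c8_co
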