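import Pool.Agent.H.MP_a785c8_co.A
import Pool.Agent.H.MP_024ca5_nt.F

set_option autoImplicit false

namespace Pool.Agent.H.MP_a785c8_co
open Matrix Polynomial

variable {T : Fin 3 → Fin 3 → ℝ} {f : Z3} {c : ℤ}

def NE (E : Set Z3) : Prop := ∀ X ∈ E, ∀ P ∈ E, ∀ Q ∈ E, ∀ R ∈ E, P ≠ X → Q ≠ X → R ≠ X →
  ∀ b d e : ℤ, 0 ≤ b → 0 ≤ d → 0 ≤ e → 0 < b + d + e →
    ¬ ∀ j, (b + d + e) * X j = b * P j + d * Q j + e * R j

lemma three (hc : 2 ≤ c) {E : Set Z3} (hE : NE E) (h : ∀ z ∈ E, lv f z = c) {A B C : Z3}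
    (hA : A ∈ E) (hB : B ∈ E) (hC : C ∈ E) (n1 : A ≠ B) (n2 : A ≠ C) (n3 : B ≠ C) :
    di A B C ≠ 0 := by
  intro h0
  obtain ⟨Y, hY⟩ : ∃ Y, 0 < di A B Y := by
    by_contra h1
    push Not at h1
    have k : ∀ Y, di A B Y = 0 := fun Y => le_antisymm (h1 Y) (by
      have := h1 (-Y)
      simp only [di, Pi.neg_apply] at this ⊢
      linarith)
    have k0 := k ![1, 0, 0]
    have k1 := k ![0, 1, 0]
    have k2 := k ![0, 0, 1]
    have a := h A hA
    have b := h B hB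
    simp only [di, lv, cons_val_zero, cons_val_one, cons_val] at k0 k1 k2 a b
    refine n1 (funext fun j => mul_left_cancel₀ (by omega : c ≠ 0) ?_)
    fin_cases j <;> simp only [Fin.zero_eta, Fin.mk_one, Fin.reduceFinMk]
    · linear_combination B 0 * a - A 0 * b + f 1 * k2 - f 2 * k1
    · linear_combination B 1 * a - A 1 * b - f 0 * k2 + f 2 * k0
    · linear_combination B 2 * a - A 2 * b + f 0 * k1 - f 1 * k0
  have e1 := cram A B Y C
  have e2 := cram_lv (f := f) A B Y C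
  rw [h0, h A hA, h B hB, h C hC] at e2
  rw [h0] at e1
  have e3 : di A B Y = di C B Y + di A C Y := mul_right_cancel₀ (by omega : c ≠ 0) (by linarith)
  rw [e3] at e1 hY
  generalize di C B Y = a at *
  generalize di A C Y = b at *
  by_cases k1 : a < 0
  · exact hE B hB C hC A hA A hA n3.symm n1 n1 (a + b) (-a) 0 (by omega) (by omega) le_rfl
      (by omega) fun j => by linarith [e1 j]
  by_cases k2 : b < 0
  · exact hE A hA C hC B hB B hB n2.symm n1.symm n1.symm (a + b) (-b) 0 (by omega) (by omega)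
      le_rfl (by omega) fun j => by linarith [e1 j]
  exact hE C hC A hA B hB B hB n2 n3 n3 a b 0 (by omega) (by omega) le_rfl (by omega)
    fun j => by linarith [e1 j]

lemma four (hc : 2 ≤ c) {E : Set Z3} (hE : NE E) (h : ∀ z ∈ E, cn T z ∧ lv f z = c) {A B C D : Z3}
    (hA : A ∈ E) (hB : B ∈ E) (hC : C ∈ E) (hD : D ∈ E) (n1 : A ≠ B) (n2 : A ≠ C) (n3 : A ≠ D)
    (n4 : B ≠ C) (n5 : B ≠ D) (n6 : C ≠ D) (hN : 0 < di A B C) :
    ∃ A B C D, Qd T f c A B C D := by
  have h' := fun z hz => (h z hz).2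
  have e1 := cram A B C D
  have e2 := lev4 hc (h' A hA) (h' B hB) (h' C hC) (h' D hD)
  have a := three hc hE h' hD hB hC n5.symm n6.symm n4
  have b := three hc hE h' hA hD hC n3 n2 n6.symm
  have d := three hc hE h' hA hB hD n1 n3 n5
  rcases a.lt_or_gt with a | a <;> rcases b.lt_or_gt with b | b <;> rcases d.lt_or_gt with d | d
  · omega
  · exact absurd (fun j => by rw [e2] at e1 ⊢; linarith [e1 j]) (hE C hC D hD A hA B hB n6.symm n2 n4
      (di A B C) (-di D B C) (-di A D C) (by omega) (by omega) (by omega) (by omega))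
  · exact absurd (fun j => by rw [e2] at e1 ⊢; linarith [e1 j]) (hE B hB D hD A hA C hC n5.symm n1
      n4.symm (di A B C) (-di D B C) (-di A B D) (by omega) (by omega) (by omega) (by omega))
  · refine ⟨A, B, D, C, ⟨h A hA, h B hB, h D hD, h C hC⟩, ?_, ?_, ?_, ?_⟩ <;>
      unfold di at * <;> linarith
  · exact absurd (fun j => by rw [e2] at e1 ⊢; linarith [e1 j]) (hE A hA D hD B hB C hC n3.symm
      n1.symm n2.symm (di A B C) (-di A D C) (-di A B D) (by omega) (by omega) (by omega) (by omega))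
  · refine ⟨A, B, C, D, ⟨h A hA, h B hB, h C hC, h D hD⟩, ?_, ?_, ?_, ?_⟩ <;>
      unfold di at * <;> linarith
  · refine ⟨A, D, B, C, ⟨h A hA, h D hD, h B hB, h C hC⟩, ?_, ?_, ?_, ?_⟩ <;>
      unfold di at * <;> linarith
  · exact absurd (fun j => by rw [e2] at e1; linarith [e1 j]) (hE D hD A hA B hB C hC n3 n5 n6
      (di D B C) (di A D C) (di A B D) (by omega) (by omega) (by omega) (by omega))

lemma ne_of {F : Set (Fin 3 → ℝ)} (hF : Convex ℝ F) :
    NE {z | (fun j => (z j : ℝ)) ∈ F.extremePoints ℝ} := by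
  intro X hX P hP Q hQ R hR n1 n2 n3 b d e hb hd he hs h
  have inj : ∀ {P : Z3}, P ≠ X → (fun j => (P j : ℝ)) ≠ fun j => (X j : ℝ) := fun n e =>
    n (funext fun j => by exact_mod_cast congrFun e j)
  have hs' : (0 : ℝ) < b + d + e := by exact_mod_cast hs
  have h1 := (hF.mem_extremePoints_iff_convex_sdiff.mp hX).2.sum_mem (t := Finset.univ)
    (w := ![(b : ℝ) / (b + d + e), d / (b + d + e), e / (b + d + e)])
    (z := ![fun j => (P j : ℝ), fun j => (Q j : ℝ), fun j => (R j : ℝ)])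
    (fun i _ => by fin_cases i <;> simp <;> positivity)
    (by simp [Fin.sum_univ_three]; field_simp)
    (fun i _ => by
      fin_cases i
      · exact ⟨hP.1, inj n1⟩
      · exact ⟨hQ.1, inj n2⟩
      · exact ⟨hR.1, inj n3⟩)
  refine h1.2 (funext fun j => ?_)
  have h2 : ((b : ℝ) + d + e) * X j = b * P j + d * Q j + e * R j := by exact_mod_cast h j
  simp [Fin.sum_univ_three]
  field_simp
  linarith

theorem main (A : Matrix (Fin 3) (Fin 3) ℤ) (v : Fin 3 → (Fin 3 → ℝ)) (μ : Fin 3 → ℝ)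
    (hA : Irreducible (A.charpoly.map (Int.castRingHom ℚ))) (hv : LinearIndependent ℝ v)
    (hev : ∀ i, (A.map (fun a : ℤ => (a : ℝ))).mulVec (v i) = μ i • v i) (K : Set (Fin 3 → ℝ))
    (hK : K = {x : Fin 3 → ℝ | (∃ t : Fin 3 → ℝ, (∀ i, 0 ≤ t i) ∧ x = ∑ i, t i • v i) ∧
      ∃ z : Fin 3 → ℤ, z ≠ 0 ∧ x = fun j => (z j : ℝ)})
    (H : ∀ (w : Fin 3 → ℝ) (c : ℝ), w ≠ 0 → (∀ x ∈ convexHull ℝ K, c ≤ dotProduct w x) →
      Module.finrank ℝ (vectorSpan ℝ {x ∈ convexHull ℝ K | dotProduct w x = c}) = 2 →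
      (Set.extremePoints ℝ {x ∈ convexHull ℝ K | dotProduct w x = c}).ncard = 4) : False := by
  set Vm : Matrix (Fin 3) (Fin 3) ℝ := Matrix.of fun j i => v i j with hVm
  have hV : ∀ x, Vm *ᵥ x = ∑ i, x i • v i := fun x => by
    funext j; simp [hVm, mulVec, dotProduct, mul_comm]
  have hu : IsUnit Vm.det := (isUnit_iff_isUnit_det _).mp (linearIndependent_cols_iff_isUnit.mp hv)
  have hμ : Function.Injective μ := by
    have e : A.map (Int.castRingHom ℝ) * Vm = Vm * diagonal μ := by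
      ext j i
      have := congrFun (hev i) j
      simp only [mulVec, dotProduct, Pi.smul_apply, smul_eq_mul] at this
      rw [mul_diagonal, mul_apply, mul_comm]
      exact this
    have e2 : (A.map (Int.castRingHom ℝ)).charpoly = ∏ i, (X - C (μ i)) := by
      rw [← charpoly_diagonal, ← mul_nonsing_inv_cancel_right Vm (A.map _) hu, e, charpoly_mul_comm,
        nonsing_inv_mul_cancel_left _ _ hu]
    rw [← separable_prod_X_sub_C_iff, ← e2, charpoly_map]
    have := hA.separable.map (f := algebraMap ℚ ℝ)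
    rwa [Polynomial.map_map, RingHom.ext_int (RingHom.comp _ _) (Int.castRingHom ℝ)] at this
  obtain ⟨f, f1, c, hc, f2, p, hp, q, hq, r, hr, p1, q1, r1, hli⟩ :=
    MP_024ca5_nt.main A hA μ v hμ hv.ne_zero hev _ rfl
  have hd : ∀ z : Z3, (fun j => (f j : ℝ)) ⬝ᵥ (fun j => (z j : ℝ)) = (f ⬝ᵥ z : ℤ) := fun z => by
    simp [dotProduct]
  have hl : ∀ z, f ⬝ᵥ z = lv f z := fun z => by simp [dotProduct, lv, Fin.sum_univ_three]
  set w : Fin 3 → ℝ := fun j => (f j : ℝ) with hw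
  have lin : IsLinearMap ℝ (fun x => w ⬝ᵥ x) :=
    ⟨dotProduct_add w, fun a x => dotProduct_smul a w x⟩
  have h1 : ∀ x ∈ convexHull ℝ K, (c : ℝ) ≤ w ⬝ᵥ x :=
    convexHull_min (fun x hx => by
      rw [hK] at hx
      obtain ⟨h, z, z1, rfl⟩ := hx
      change _ ≤ w ⬝ᵥ _
      rw [hd]
      exact_mod_cast f2 z ⟨z1, h⟩) (convex_halfSpace_ge lin c)
  set F := {x ∈ convexHull ℝ K | w ⬝ᵥ x = c} with hF
  have mem : ∀ z : Z3, (z ≠ 0 ∧ ∃ t : Fin 3 → ℝ, (∀ i, 0 ≤ t i) ∧
      (fun j => (z j : ℝ)) = ∑ i, t i • v i) → f ⬝ᵥ z = c → (fun j => (z j : ℝ)) ∈ F :=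
    fun z a b => ⟨subset_convexHull ℝ K (hK ▸ ⟨a.2, z, a.1, rfl⟩), by rw [hd, b]⟩
  have w0 : w ≠ 0 := fun e => by
    have := hd p
    rw [e, zero_dotProduct, p1] at this
    have : c = 0 := by exact_mod_cast this.symm
    omega
  have h2 := H w c w0 h1 (by
    apply le_antisymm
    · have k1 : vectorSpan ℝ F ≤ LinearMap.ker (lin.mk' _) := by
        rw [vectorSpan_def, Submodule.span_le]
        rintro _ ⟨x, hx, y, hy, rfl⟩
        change w ⬝ᵥ (x - y) = 0
        rw [dotProduct_sub, hx.2, hy.2, sub_self]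
      have k2 := Module.Dual.finrank_ker_add_one_of_ne_zero (f := lin.mk' _)
        (fun e => w0 (dotProduct_self_eq_zero.mp (LinearMap.congr_fun e w)))
      rw [Module.finrank_fin_fun] at k2
      exact (Submodule.finrank_mono k1).trans (by omega)
    · have k1 := (linearIndependent_algebraMap_comp_iff (S := ℝ)).mpr hli
      refine (finrank_span_eq_card k1).ge.trans (Submodule.finrank_mono ?_)
      rw [Submodule.span_le]
      rintro _ ⟨i, rfl⟩
      fin_cases i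
      · exact Set.mem_of_eq_of_mem (funext fun j => by simp)
          (vsub_mem_vectorSpan ℝ (mem q hq q1) (mem p hp p1))
      · exact Set.mem_of_eq_of_mem (funext fun j => by simp)
          (vsub_mem_vectorSpan ℝ (mem r hr r1) (mem p hp p1)))
  have h3 : IsExtreme ℝ (convexHull ℝ K) F := ⟨fun _ h => h.1, fun x hx y hy z hz h => by
    obtain ⟨a, b, ha, hb, e, rfl⟩ := h
    have k := hz.2
    rw [dotProduct_add, dotProduct_smul, dotProduct_smul, smul_eq_mul, smul_eq_mul] at k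
    refine ⟨hx, le_antisymm (le_of_mul_le_mul_left ?_ ha) (h1 x hx)⟩
    have := mul_le_mul_of_nonneg_left (h1 y hy) hb.le
    have e' : a * c + b * c = c := by rw [← add_mul, e, one_mul]
    linarith⟩
  have h4 : ∀ x ∈ F.extremePoints ℝ, x ∈ K := fun x hx =>
    extremePoints_convexHull_subset (h3.extremePoints_subset_extremePoints hx)
  set T : Fin 3 → Fin 3 → ℝ := fun i j => (Vm⁻¹ : Matrix _ _ ℝ) i j with hT
  have hel : ∀ z : Z3, ∀ i, el T i z = (Vm⁻¹ *ᵥ fun j => (z j : ℝ)) i := fun z i => by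
    simp only [el, hT, mulVec, dotProduct, Fin.sum_univ_three]
  have h5 : ∀ z ∈ {z : Z3 | (fun j => (z j : ℝ)) ∈ F.extremePoints ℝ}, cn T z ∧ lv f z = c :=
    fun z hz => by
      have k := h4 _ hz
      rw [hK] at k
      obtain ⟨⟨t, t1, t2⟩, -⟩ := k
      refine ⟨fun i => ?_, ?_⟩
      · rw [hel, t2, ← hV, mulVec_mulVec, nonsing_inv_mul _ hu, one_mulVec]
        exact t1 i
      · have := hz.1.2
        rw [hd, hl] at this
        exact_mod_cast this
  have hE := ne_of ((convex_convexHull ℝ K).inter (convex_hyperplane lin c))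
  obtain ⟨x1, x2, x3, x4, n1, n2, n3, n4, n5, n6, e⟩ := Set.ncard_eq_four.mp h2
  have h6 : ∀ x ∈ F.extremePoints ℝ, ∃ z : Z3, x = fun j => (z j : ℝ) := fun x hx => by
    have k := h4 x hx
    rw [hK] at k
    obtain ⟨-, z, -, k⟩ := k
    exact ⟨z, k⟩
  have m1 : x1 ∈ F.extremePoints ℝ := e.ge (by simp)
  have m2 : x2 ∈ F.extremePoints ℝ := e.ge (by simp)
  have m3 : x3 ∈ F.extremePoints ℝ := e.ge (by simp)
  have m4 : x4 ∈ F.extremePoints ℝ := e.ge (by simp)
  obtain ⟨z1, rfl⟩ := h6 _ m1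
  obtain ⟨z2, rfl⟩ := h6 _ m2
  obtain ⟨z3, rfl⟩ := h6 _ m3
  obtain ⟨z4, rfl⟩ := h6 _ m4
  have ne : ∀ {a b : Z3}, (fun j => (a j : ℝ)) ≠ (fun j => (b j : ℝ)) → a ≠ b :=
    fun h e => h (by rw [e])
  obtain ⟨g, -, f', k, g1, g2⟩ := MP_024ca5_nt.prim f
  obtain ⟨g', g3⟩ := (f1 g fun i => ⟨_, g1 i⟩).exists_right_inv
  have hk : lv f (fun j => g' * k j) = 1 := by
    simp only [lv, g1]; linear_combination g * g' * g2 + g3
  have h7 : ∀ z, cn T z → z ≠ 0 → c ≤ lv f z := fun z a b => hl z ▸ f2 z ⟨b, _,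
    fun i => hel z i ▸ a i, by rw [← hV, mulVec_mulVec, mul_nonsing_inv _ hu, one_mulVec]⟩
  rcases (three hc hE (fun z hz => (h5 z hz).2) m1 m2 m3 (ne n1) (ne n2) (ne n4)).lt_or_gt
    with h8 | h8
  · obtain ⟨_, _, _, _, h9⟩ := four hc hE h5 m2 m1 m3 m4 (ne n1).symm (ne n4) (ne n5) (ne n2)
      (ne n3) (ne n6) (by unfold di at *; linarith)
    exact noquad hc h7 hk h9
  · obtain ⟨_, _, _, _, h9⟩ := four hc hE h5 m1 m2 m3 m4 (ne n1) (ne n2) (ne n3) (ne n4)
      (ne n5) (ne n6) h8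
    exact noquad hc h7 hk h9

end Pool.Agent.H.MP_a785c8_co
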